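import Mathlib
import Pool.Agent.Lib.lead.ProjAlg

namespace Pool.Agent.Results.MP_71be7b_lc.Continuum

open Set Pool.Agent.Lib.lead.ProjAlg Cardinal

/-- Projective algebras generated by `k` subsets of the plane. -/
def Gen (k : ℕ) : Type := {F : Set (Set (ℝ × ℝ)) // ∃ S : Fin k → Set (ℝ × ℝ), F = gen S}

lemma Gen.proj {k : ℕ} (F : Gen k) : IsProj F.1 := by
  obtain ⟨S, h⟩ := F.2
  rw [h, gen_eq]
  exact range_proj S

lemma iso_sub1 {φ F G} (h : IsIso φ F G) {A} (hA : A ∈ F) (h1 : φ A ⊆ XA) (hF : IsProj F) :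
    A ⊆ XA := by
  have : φ (pi1 A) = φ A := by rw [h.proj1 _ hA, pi1_eq h1]
  rw [← h.bij.injOn (hF.proj1 _ hA) hA this]
  exact pi1_sub _

lemma iso_sub2 {φ F G} (h : IsIso φ F G) {A} (hA : A ∈ F) (h1 : φ A ⊆ YA) (hF : IsProj F) :
    A ⊆ YA := by
  have : φ (pi2 A) = φ A := by rw [h.proj2 _ hA, pi2_eq h1]
  rw [← h.bij.injOn (hF.proj2 _ hA) hA this]
  exact pi2_sub _

lemma iso_symm {φ F G} (hF : IsProj F) (h : IsIso φ F G) : IsIso (Function.invFunOn φ F) G F := by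
  have hl : ∀ A ∈ F, Function.invFunOn φ F (φ A) = A := fun A hA => h.bij.invOn_invFunOn.1 hA
  have hs := h.bij.surjOn
  refine ⟨h.bij.symm h.bij.invOn_invFunOn.symm, ?_, ?_, ?_, ?_, ?_, ?_⟩
  · intro A hA B hB
    obtain ⟨A, hA', rfl⟩ := hs hA
    obtain ⟨B, hB', rfl⟩ := hs hB
    rw [← h.union _ hA' _ hB', hl _ hA', hl _ hB', hl _ (hF.union _ hA' _ hB')]
  · intro A hA B hB
    obtain ⟨A, hA', rfl⟩ := hs hA
    obtain ⟨B, hB', rfl⟩ := hs hB
    rw [← h.inter _ hA' _ hB', hl _ hA', hl _ hB', hl _ (hF.inter _ hA' _ hB')]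
  · intro A hA
    obtain ⟨A, hA', rfl⟩ := hs hA
    rw [← h.compl _ hA', hl _ hA', hl _ (hF.compl _ hA')]
  · intro A hA
    obtain ⟨A, hA', rfl⟩ := hs hA
    rw [← h.proj1 _ hA', hl _ hA', hl _ (hF.proj1 _ hA')]
  · intro A hA
    obtain ⟨A, hA', rfl⟩ := hs hA
    rw [← h.proj2 _ hA', hl _ hA', hl _ (hF.proj2 _ hA')]
  · intro A hA B hB h1 h2
    obtain ⟨A, hA', rfl⟩ := hs hA
    obtain ⟨B, hB', rfl⟩ := hs hB
    have a1 := iso_sub1 h hA' h1 hF
    have a2 := iso_sub2 h hB' h2 hF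
    rw [← h.prod _ hA' _ hB' a1 a2, hl _ hA', hl _ hB', hl _ (hF.prod _ hA' _ hB' a1 a2)]

lemma iso_trans {φ ψ F G H} (h : IsIso φ F G) (h' : IsIso ψ G H) : IsIso (ψ ∘ φ) F H := by
  have m := h.bij.mapsTo
  refine ⟨h'.bij.comp h.bij, ?_, ?_, ?_, ?_, ?_, ?_⟩
  · intro A hA B hB
    simp only [Function.comp]
    rw [h.union _ hA _ hB, h'.union _ (m hA) _ (m hB)]
  · intro A hA B hB
    simp only [Function.comp]
    rw [h.inter _ hA _ hB, h'.inter _ (m hA) _ (m hB)]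
  · intro A hA
    simp only [Function.comp]
    rw [h.compl _ hA, h'.compl _ (m hA)]
  · intro A hA
    simp only [Function.comp]
    rw [h.proj1 _ hA, h'.proj1 _ (m hA)]
  · intro A hA
    simp only [Function.comp]
    rw [h.proj2 _ hA, h'.proj2 _ (m hA)]
  · intro A hA B hB h1 h2
    simp only [Function.comp]
    have a1 : φ A ⊆ XA := by rw [← pi1_eq h1, h.proj1 _ hA]; exact pi1_sub _
    have a2 : φ B ⊆ YA := by rw [← pi2_eq h2, h.proj2 _ hB]; exact pi2_sub _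
    rw [h.prod _ hA _ hB h1 h2, h'.prod _ (m hA) _ (m hB) a1 a2]

/-- Isomorphism of projective algebras, as an equivalence relation. -/
def isoSetoid (k : ℕ) : Setoid (Gen k) where
  r F G := ∃ φ, IsIso φ F.1 G.1
  iseqv :=
    ⟨fun F => ⟨id, bijOn_id _, fun _ _ _ _ => rfl, fun _ _ _ _ => rfl, fun _ _ => rfl,
        fun _ _ => rfl, fun _ _ => rfl, fun _ _ _ _ _ _ => rfl⟩,
      fun {F _} ⟨_, h⟩ => ⟨_, iso_symm F.proj h⟩,
      fun ⟨_, h⟩ ⟨_, h'⟩ => ⟨_, iso_trans h h'⟩⟩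

lemma iso_of_ker {ι : Type} (S S' : ι → Set (ℝ × ℝ))
    (h : ∀ a b, ev S a = ev S b ↔ ev S' a = ev S' b) :
    ∃ φ, IsIso φ (range (ev S)) (range (ev S')) := by
  classical
  let φ : Set (ℝ × ℝ) → Set (ℝ × ℝ) := fun A => if hA : ∃ t, ev S t = A then ev S' hA.choose else ∅
  have hφ : ∀ t, φ (ev S t) = ev S' t := by
    intro t
    have hA : ∃ t', ev S t' = ev S t := ⟨t, rfl⟩
    simp only [φ, dif_pos hA]
    exact (h _ _).1 hA.choose_spec
  refine ⟨φ, ⟨?_, ?_, ?_⟩, ?_, ?_, ?_, ?_, ?_, ?_⟩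
  · rintro _ ⟨t, rfl⟩; exact ⟨t, (hφ t).symm⟩
  · rintro _ ⟨a, rfl⟩ _ ⟨b, rfl⟩ e
    rw [hφ, hφ] at e
    exact (h _ _).2 e
  · rintro _ ⟨t, rfl⟩; exact ⟨_, ⟨t, rfl⟩, hφ t⟩
  · rintro _ ⟨a, rfl⟩ _ ⟨b, rfl⟩; rw [hφ, hφ]; exact hφ (.union a b)
  · rintro _ ⟨a, rfl⟩ _ ⟨b, rfl⟩; rw [hφ, hφ]; exact hφ (.inter a b)
  · rintro _ ⟨a, rfl⟩; rw [hφ]; exact hφ (.compl a)
  · rintro _ ⟨a, rfl⟩; rw [hφ]; exact hφ (.p1 a)
  · rintro _ ⟨a, rfl⟩; rw [hφ]; exact hφ (.p2 a)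
  · rintro _ ⟨a, rfl⟩ _ ⟨b, rfl⟩ h1 h2
    have e1 : ev S' (.p1 a) = ev S' a := (h _ _).1 (pi1_eq h1)
    have e2 : ev S' (.p2 b) = ev S' b := (h _ _).1 (pi2_eq h2)
    have := hφ (.prod a b)
    simp only [ev] at this e1 e2
    rw [pi1_eq h1, pi2_eq h2, e1, e2] at this
    rw [hφ, hφ, this]

theorem result : ∀ k : ℕ, 0 < k → Cardinal.mk (Quotient (isoSetoid k)) = Cardinal.continuum := by
  intro k hk
  haveI := Tm.countable (Fin k)
  have hS : ∀ q : Quotient (isoSetoid k), ∃ S : Fin k → Set (ℝ × ℝ), q.out.1 = range (ev S) := by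
    intro q
    obtain ⟨S, h⟩ := q.out.2
    exact ⟨S, by rw [h, gen_eq]⟩
  choose S hS using hS
  apply le_antisymm
  · have hinj : Function.Injective (fun q : Quotient (isoSetoid k) =>
        {p : Tm (Fin k) × Tm (Fin k) | ev (S q) p.1 = ev (S q) p.2}) := by
      intro q q' e
      rw [← q.out_eq, ← q'.out_eq]
      apply Quotient.sound
      change ∃ φ, IsIso φ q.out.1 q'.out.1
      rw [hS, hS]
      exact iso_of_ker _ _ fun a b => by
        have := congrArg (fun s => (a, b) ∈ s) e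
        exact Iff.of_eq this
    refine (mk_le_of_injective hinj).trans ?_
    rw [mk_set, ← two_power_aleph0]
    exact power_le_power_left two_ne_zero mk_le_aleph0
  · let A : Set ℕ → Gen k := fun T => ⟨gen (fun _ : Fin k => STs T), _, rfl⟩
    have m : ∀ T, STs T ∈ (A T).1 := fun T => by
      change STs T ∈ gen _
      rw [gen_eq]; exact ⟨.var ⟨0, hk⟩, rfl⟩
    have hiso : ∀ T, ∃ φ, IsIso φ (A T).1 (Quotient.mk (isoSetoid k) (A T)).out.1 := fun T =>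
      (isoSetoid k).symm (Quotient.mk_out (s := isoSetoid k) (A T))
    choose φ hφ using hiso
    have ht : ∀ T, ∃ t, ev (S (Quotient.mk (isoSetoid k) (A T))) t = φ T (STs T) := fun T => by
      have := (hφ T).bij.mapsTo (m T)
      rw [hS] at this
      exact this
    choose t ht using ht
    have hinj : Function.Injective (fun T => (Quotient.mk (isoSetoid k) (A T), t T)) := by
      intro T T' e
      simp only [Prod.mk.injEq] at e
      apply determined (A T).proj (A T').proj (m T) (m T') (hφ T) (hφ T')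
      rw [← ht, ← ht, e.1, e.2]
    have h1 := mk_le_of_injective hinj
    rw [mk_set, mk_nat, two_power_aleph0, mk_prod, lift_id, lift_id] at h1
    by_contra hc
    push Not at hc
    exact absurd h1 (not_le.2 (mul_lt_of_lt aleph0_le_continuum hc
      (mk_le_aleph0.trans_lt aleph0_lt_continuum)))

end Pool.Agent.Results.MP_71be7b_lc.Continuum
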